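import Pool.Agent.H12.PCA

/-! The planar majority automaton is ergodic under arbitrarily small biased noise. -/

open MeasureTheory ProbabilityTheory Set Filter Topology Pool.Agent.H12.PCA
open scoped ENNReal NNReal

namespace Pool.Agent.Results.MP_417bbc_pr.Biased

/-- the nearest-neighbour majority rule -/
def maj (x : ℤ × ℤ → Bool) (i : ℤ × ℤ) : Bool :=
  decide (3 ≤ (x i).toNat + (x (i + (1, 0))).toNat + (x (i - (1, 0))).toNat +
    (x (i + (0, 1))).toNat + (x (i - (0, 1))).toNat)

/-- majority followed by the noise `θ` -/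
noncomputable def step (θ : Bool → PMF Bool) (μ : Measure (ℤ × ℤ → Bool)) :
    Measure (ℤ × ℤ → Bool) :=
  μ.bind fun x => Measure.infinitePi fun i => (θ (maj x i)).toMeasure

/-- one move -/
def T (p : (ℤ × ℤ → Bool) × (ℤ × ℤ → Fin 3)) (i : ℤ × ℤ) : Bool := ![false, true, maj p.1 i] (p.2 i)

lemma T_cont : Continuous T := continuous_pi fun i =>
  (continuous_of_discreteTopology (f := fun p : (Bool × Bool × Bool × Bool × Bool) × Fin 3 =>
    ![false, true, decide (3 ≤ p.1.1.toNat + p.1.2.1.toNat + p.1.2.2.1.toNat + p.1.2.2.2.1.toNat +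
      p.1.2.2.2.2.toNat)] p.2)).comp (f := fun p : (ℤ × ℤ → Bool) × (ℤ × ℤ → Fin 3) =>
        ((p.1 i, p.1 (i + (1, 0)), p.1 (i - (1, 0)), p.1 (i + (0, 1)), p.1 (i - (0, 1))), p.2 i))
    (by fun_prop)

/-- boxes -/
noncomputable def box (i : ℤ × ℤ) (n : ℕ) : Finset (ℤ × ℤ) :=
  Finset.Icc (i.1 - n) (i.1 + n) ×ˢ Finset.Icc (i.2 - n) (i.2 + n)

lemma loc (n : ℕ) (x y : ℤ × ℤ → Bool) (ω : ℕ → ℤ × ℤ → Fin 3) (i : ℤ × ℤ)
    (h : ∀ j ∈ box i n, x j = y j) : traj T x n ω i = traj T y n ω i := by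
  induction n generalizing i with
  | zero => exact h i (by simp [box])
  | succ n ih =>
    have h1 : ∀ k : ℤ × ℤ, |k.1 - i.1| ≤ 1 → |k.2 - i.2| ≤ 1 → traj T x n ω k = traj T y n ω k :=
      fun k h1 h2 => ih k fun j hj => h j (by
        simp only [box, Finset.mem_product, Finset.mem_Icc, abs_le] at *; omega)
    simp only [traj, T, maj, h1 i (by simp) (by simp), h1 (i + (1, 0)) (by simp) (by simp),
      h1 (i - (1, 0)) (by simp) (by simp), h1 (i + (0, 1)) (by simp) (by simp),
      h1 (i - (0, 1)) (by simp) (by simp)]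

/-- two by two squares -/
def sq (i : ℤ × ℤ) : Finset (ℤ × ℤ) := {i.1, i.1 + 1} ×ˢ {i.2, i.2 + 1}

lemma good {M s : ℕ} {ω : ℕ → ℤ × ℤ → Fin 3} {i : ℤ × ℤ} (hs : s < M) (h1 : ∀ j ∈ sq i, ω s j = 1)
    (h2 : ∀ n < M, ∀ j ∈ sq i, ω n j ≠ 0) (x : ℤ × ℤ → Bool) : traj T x M ω i = true := by
  have h : ∀ n, s + n < M → ∀ j ∈ sq i, traj T x (s + n + 1) ω j = true := fun n => by
    induction n with
    | zero => intro _ j hj; simp [traj, T, h1 j hj]
    | succ n ih =>
      intro hn j hj
      have h3 := ih (by omega)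
      have h4 := h2 _ hn j hj
      have h5 : maj (traj T x (s + n + 1) ω) j = true := by
        generalize traj T x (s + n + 1) ω = y at h3
        obtain ⟨a, b⟩ := i
        obtain ⟨c, d⟩ := j
        simp only [sq, Finset.mem_product, Finset.mem_insert, Finset.mem_singleton, Prod.forall,
          and_imp] at h3 hj
        obtain ⟨rfl | rfl, rfl | rfl⟩ := hj <;> simp [maj, h3] <;> omega
      rw [← add_assoc] at h4 ⊢
      rw [traj]
      simp only [T, h5]
      generalize ω (s + n + 1) j = c at h4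
      revert c
      decide
  obtain ⟨n, rfl⟩ := Nat.exists_eq_add_of_lt hs
  exact h n (by omega) i (by simp [sq])

theorem result (ε₀ : ℝ) (hε : 0 < ε₀) : ∃ θ : Bool → PMF Bool, (∀ a b, θ a b ≠ 0) ∧
    (∀ a, 1 - θ a a ≤ ENNReal.ofReal ε₀) ∧
    ∃ Φ : ProbabilityMeasure (ℤ × ℤ → Bool) → ProbabilityMeasure (ℤ × ℤ → Bool),
      (∀ μ, (Φ μ : Measure (ℤ × ℤ → Bool)) = step θ μ) ∧
      ∃ π, Φ π = π ∧ (∀ ν, Φ ν = ν → ν = π) ∧ ∀ μ, Tendsto (fun t => Φ^[t] μ) atTop (𝓝 π) := by
  obtain ⟨ε, h0, h1, h2⟩ : ∃ ε : ℝ≥0, 0 < ε ∧ ε + ε ≤ 1 ∧ (ε : ℝ) ≤ ε₀ :=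
    ⟨min ⟨ε₀, hε.le⟩ 2⁻¹, lt_min hε (by simp), (add_le_add (min_le_right _ _)
      (min_le_right _ _)).trans (by norm_num), NNReal.coe_le_coe.mpr (min_le_left _ _)⟩
  have h3 : ε ^ 4 ≤ 1 := pow_le_one₀ h0.le (le_add_self.trans h1)
  obtain ⟨M, hM⟩ : ∃ M : ℕ, ((2 * M + 1) ^ 2 : ℝ≥0) * (1 - ε ^ 4) ^ M ≤ 4⁻¹ := by
    have h4 := (tendsto_pow_const_mul_const_pow_of_abs_lt_one 2 (r := (1 - ε ^ 4 : ℝ≥0)) (by
      rw [NNReal.abs_eq]; exact_mod_cast tsub_lt_self one_pos (pow_pos h0 4))).const_mul 9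
    rw [mul_zero] at h4
    obtain ⟨M, h5, h6⟩ := ((h4.eventually (ge_mem_nhds (show (0 : ℝ) < 4⁻¹ by norm_num))).and
      (eventually_ge_atTop 1)).exists
    refine ⟨M, NNReal.coe_le_coe.mp (le_trans ?_ h5)⟩
    have h7 : (1 : ℝ) ≤ M := by exact_mod_cast h6
    rw [← mul_assoc]
    push_cast
    exact mul_le_mul_of_nonneg_right (by nlinarith) (by positivity)
  obtain ⟨η, h4, h5, h6⟩ : ∃ η : ℝ≥0, 0 < η ∧ η ≤ ε ∧ (2 * M + 1) ^ 2 * (M * (4 * η)) ≤ 4⁻¹ :=
    ⟨min ε (16 * (M + 1) * (2 * M + 1) ^ 2)⁻¹, lt_min h0 (by positivity), min_le_left _ _, by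
      refine (mul_le_mul_right (mul_le_mul' (le_self_add (b := 1)) (mul_le_mul_right
        (min_le_right _ _) _)) _).trans (le_of_eq ?_)
      field_simp
      norm_num⟩
  have h7 : ((η : ℝ≥0∞) + ε) ≤ 1 := by exact_mod_cast (add_le_add_left h5 _).trans h1
  obtain ⟨coin, hc⟩ : ∃ coin : PMF (Fin 3), ∀ c, coin c = ![(η : ℝ≥0∞), ε, 1 - (η + ε)] c :=
    ⟨PMF.ofFintype ![(η : ℝ≥0∞), ε, 1 - (η + ε)] (by
      simpa [Fin.sum_univ_three] using add_tsub_cancel_of_le h7), fun _ => rfl⟩
  obtain ⟨K, hK⟩ : ∃ K : ProbabilityMeasure (ℤ × ℤ → Fin 3),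
    K.toMeasure = Measure.infinitePi fun _ => coin.toMeasure :=
      ⟨⟨Measure.infinitePi fun _ => coin.toMeasure, inferInstance⟩, rfl⟩
  have hT := T_cont.measurable
  have h8 : ∀ a b, (coin.map ![false, true, a]) b = (if b then (ε : ℝ≥0∞) else η) +
      if a = b then 1 - (η + ε) else 0 := fun a b => by
    rw [PMF.map_apply, tsum_fintype, Fin.sum_univ_three]
    cases a <;> cases b <;> simp [hc]
  refine ⟨fun a => coin.map ![false, true, a], fun a b => ?_, fun a => ?_,
    fun μ => (μ.prod K).map hT.aemeasurable, fun μ => ?_, erg ((ProbabilityMeasure.continuous_map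
      T_cont).comp (ProbabilityMeasure.continuous_prod.comp (.prodMk_left K))) (diracProba 0)
        fun D w e he => ?_⟩
  · cases b <;> simp [h8, h0.ne', h4.ne']
  · rw [h8, if_pos rfl, tsub_le_iff_right]
    refine (add_tsub_cancel_of_le h7).ge.trans ?_
    have h9 : (ε : ℝ≥0∞) ≤ ENNReal.ofReal ε₀ := ENNReal.ofReal_coe_nnreal.ge.trans
      (ENNReal.ofReal_le_ofReal h2)
    rw [← add_assoc]
    cases a
    · exact add_le_add_left ((add_comm _ _).trans_le (add_le_add_left h9 _)) _
    · exact add_le_add_left (add_le_add_left ((ENNReal.coe_le_coe.mpr h5).trans h9) _) _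
  · rw [ProbabilityMeasure.toMeasure_map, ProbabilityMeasure.toMeasure_prod, ← bind_eq _ hT, step]
    congr! 2 with x
    simp only [← PMF.toMeasure_map _ _ (measurable_of_finite _), hK]
    exact Measure.infinitePi_map_pi _ (f := fun i c => ![false, true, maj x i] c) fun _ =>
      measurable_of_finite _
  have hbad : ∀ x y i, (Measure.infinitePi fun _ : ℕ => K.toMeasure)
      {ω | traj T x M ω i ≠ traj T y M ω i} ≤ (1 - ε ^ 4) ^ M + M * (4 * η) := fun x y i => by
    have hs : (sq i).card = 4 := by simp [sq]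
    refine (measure_mono (t := Set.pi (Finset.range M) (fun _ => (Set.pi (sq i) fun _ => {1})ᶜ) ∪
      ⋃ n ∈ Finset.range M, ⋃ j ∈ sq i, {ω | ω n j = 0}) fun ω hω => ?_).trans
        ((measure_union_le _ _).trans (add_le_add ?_ ?_))
    · by_contra h
      simp only [mem_union, Set.mem_pi, mem_iUnion, not_or, not_forall, not_exists, mem_compl_iff,
        not_not, Finset.mem_coe, Finset.mem_range] at h
      obtain ⟨⟨s, h1, h2⟩, h3⟩ := h
      exact hω ((good h1 h2 (fun n hn j hj => h3 n hn j hj) x).trans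
        (good h1 h2 (fun n hn j hj => h3 n hn j hj) y).symm)
    · have hm : MeasurableSet (Set.pi (sq i : Set (ℤ × ℤ)) fun _ => ({1} : Set (Fin 3))) :=
        .pi (sq i).countable_toSet fun _ _ => .singleton _
      rw [Measure.infinitePi_pi _ fun _ _ => hm.compl, Finset.prod_const, Finset.card_range,
        prob_compl_eq_one_sub hm, hK, Measure.infinitePi_pi _ fun _ _ => .singleton _,
        Finset.prod_const, hs, PMF.toMeasure_apply_singleton _ _ (.singleton _), hc]
      rfl
    · refine (measure_biUnion_finset_le _ _).trans ((Finset.sum_le_card_nsmul _ _ (4 * η : ℝ≥0∞)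
        fun n _ => (measure_biUnion_finset_le _ _).trans ((Finset.sum_le_card_nsmul _ _ (η : ℝ≥0∞)
          fun j _ => le_of_eq ?_).trans_eq (by simp [hs]))).trans_eq (by simp))
      refine ((measurePreserving_eval_infinitePi (fun _ : ℕ => K.toMeasure) n).measure_preimage
        (s := {c | c j = 0}) (MeasurableSet.nullMeasurableSet (by measurability))).trans ?_
      rw [hK]
      refine ((measurePreserving_eval_infinitePi (fun _ => coin.toMeasure) j).measure_preimage
        (s := {0}) (MeasurableSet.nullMeasurableSet (.singleton _))).trans ?_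
      rw [PMF.toMeasure_apply_singleton _ _ (.singleton _), hc]
      rfl
  have hf : Measurable ({x : ℤ × ℤ → Bool | ∀ i ∈ D, x i = w i}.indicator
      (1 : (ℤ × ℤ → Bool) → ℝ≥0∞)) :=
    measurable_one.indicator (clopen D w).isOpen.measurableSet
  have hlip : ∀ k : ℕ, ∃ c : ℤ × ℤ → ℝ≥0∞, ∑' i, c i ≤ D.card * 2⁻¹ ^ k ∧ ∀ x y,
      (P K T)^[M * k] ({x | ∀ i ∈ D, x i = w i}.indicator 1) x ≤
        (P K T)^[M * k] ({x | ∀ i ∈ D, x i = w i}.indicator 1) y +
          ∑' i, c i * {i | x i ≠ y i}.indicator 1 i := fun k => by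
    induction k with
    | zero =>
      refine ⟨(D : Set (ℤ × ℤ)).indicator 1, by simp [← tsum_subtype], fun x y => ?_⟩
      by_cases h : ∀ i ∈ D, x i = y i
      · refine le_self_add.trans' ?_
        by_cases hx : x ∈ {x | ∀ i ∈ D, x i = w i}
        · exact (indicator_le_self _ _ x).trans (indicator_of_mem (s := {x | ∀ i ∈ D, x i = w i})
            (fun i hi => (h i hi).symm.trans (hx i hi)) (1 : (ℤ × ℤ → Bool) → ℝ≥0∞)).ge
        · exact (indicator_of_notMem hx _).trans_le bot_le
      · push Not at h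
        obtain ⟨i, h1, h2⟩ := h
        exact (indicator_le_self _ _ x).trans (le_add_self.trans' ((ENNReal.le_tsum i).trans'
          (by simp [h1, h2])))
    | succ k ih =>
      obtain ⟨c, h1, h2⟩ := ih
      refine ⟨fun j => ∑' i, c i * ((1 - ε ^ 4) ^ M + M * (4 * η)) *
        (box i M : Set (ℤ × ℤ)).indicator 1 j, ?_, fun x y => ?_⟩
      · rw [ENNReal.tsum_comm]
        have h9 : ∀ i, ∑' j, (box i M : Set (ℤ × ℤ)).indicator (1 : ℤ × ℤ → ℝ≥0∞) j =
            (2 * M + 1) ^ 2 := fun i => by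
          have h9 : ∀ a : ℤ, (a + M + 1 - (a - M)).toNat = 2 * M + 1 := fun a => by omega
          have h10 : (box i M).card = (2 * M + 1) ^ 2 := by
            rw [box, Finset.card_product, Int.card_Icc, Int.card_Icc, h9, h9, _root_.sq]
          simp [← tsum_subtype, h10]
        simp only [ENNReal.tsum_mul_left, mul_assoc, h9, ENNReal.tsum_mul_right]
        rw [pow_succ _ k, ← mul_assoc (D.card : ℝ≥0∞)]
        refine mul_le_mul' h1 ?_
        have h10 := add_le_add hM h6
        rw [← mul_add, mul_comm, show (4⁻¹ + 4⁻¹ : ℝ≥0) = 2⁻¹ by norm_num] at h10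
        have h11 := ENNReal.coe_le_coe.mpr h10
        rw [ENNReal.coe_inv_two] at h11
        exact_mod_cast h11
      · rw [mul_add, mul_one, add_comm (M * k), Function.iterate_add_apply,
          P_traj _ hT (P_meas _ hT hf _), P_traj _ hT (P_meas _ hT hf _) M y]
        refine (lintegral_mono fun ω => h2 _ (traj T y M ω)).trans ?_
        have hm : ∀ i, MeasurableSet {ω | traj T x M ω i ≠ traj T y M ω i} := fun i =>
          (measurableSet_eq_fun ((measurable_pi_apply i).comp (traj_meas hT x M))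
            ((measurable_pi_apply i).comp (traj_meas hT y M))).compl
        have h9 : ∀ ω i, {i | traj T x M ω i ≠ traj T y M ω i}.indicator (1 : ℤ × ℤ → ℝ≥0∞) i =
          {ω | traj T x M ω i ≠ traj T y M ω i}.indicator 1 ω := fun _ _ => rfl
        simp only [h9]
        rw [lintegral_add_left ((P_meas _ hT hf _).fun_comp (traj_meas hT y M)), lintegral_tsum
          fun i => ((measurable_one.indicator (hm i)).const_mul _).aemeasurable]
        simp only [← ENNReal.tsum_mul_right]
        rw [ENNReal.tsum_comm]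
        refine add_le_add_right (ENNReal.tsum_le_tsum fun i => ?_) _
        rw [lintegral_const_mul _ (measurable_one.indicator (hm i)), lintegral_indicator_one (hm i)]
        by_cases h : ∀ j ∈ box i M, x j = y j
        · simp [loc M x y _ i h]
        · push Not at h
          obtain ⟨j, h1, h2⟩ := h
          exact (mul_le_mul_right (hbad x y i) _).trans ((ENNReal.le_tsum j).trans'
            (by simp [h1, h2]))
  have h9 := ENNReal.Tendsto.const_mul (a := D.card) (ENNReal.tendsto_pow_atTop_nhds_zero_of_lt_one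
    ENNReal.one_half_lt_one) (Or.inr (by simp))
  rw [mul_zero] at h9
  obtain ⟨k, hk⟩ := (h9.eventually (ge_mem_nhds he)).exists
  obtain ⟨c, h10, h11⟩ := hlip k
  filter_upwards [eventually_ge_atTop (M * k)] with t ht μ ν
  have h12 : ∀ μ : ProbabilityMeasure (ℤ × ℤ → Bool), ((fun μ : ProbabilityMeasure _ =>
      (μ.prod K).map hT.aemeasurable)^[M * k] μ).toMeasure =
        (fun m : Measure _ => (m.prod K).map T)^[M * k] μ := fun μ =>
    Function.Semiconj.iterate_right (f := ProbabilityMeasure.toMeasure) (fun _ => rfl) _ μ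
  rw [← add_tsub_cancel_of_le ht, Function.iterate_add_apply, Function.iterate_add_apply, h12, h12,
    ← lintegral_indicator_one (clopen D w).isOpen.measurableSet, link _ hT hf,
    ← lintegral_indicator_one (clopen D w).isOpen.measurableSet, link _ hT hf]
  refine lintegral_le_const (.of_forall fun x => ?_)
  have h13 := lintegral_mono (μ := ((fun μ : ProbabilityMeasure _ => (μ.prod K).map
    hT.aemeasurable)^[t - M * k] ν).toMeasure) fun y => (h11 x y).trans (add_le_add_right
      ((ENNReal.tsum_le_tsum fun i => mul_le_of_le_one_right' (indicator_le_self _ _ i)).trans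
        (h10.trans hk)) _)
  rwa [lintegral_add_right _ measurable_const, lintegral_const, lintegral_const, measure_univ,
    mul_one, mul_one] at h13

end Pool.Agent.Results.MP_417bbc_pr.Biased
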